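import Mathlib

namespace Pool.Agent.H.MP_84c3f1_co

open Finset MvPolynomial

lemma cw (p : ℕ) [hp : Fact p.Prime] {ι T V : Type} [Fintype ι] [DecidableEq ι] [Fintype T]
    [Fintype V] (y : T → V → ZMod p) (l : V → ι → ZMod p)
    (h : Fintype.card T * (p - 1) < Fintype.card ι) :
    ∃ w : ι → ZMod p, w ≠ 0 ∧ ∀ s, ∑ v, y s v * (∑ i, w i * l v i) ^ (p - 1) = 0 := by
  classical
  obtain ⟨F, hF⟩ : ∃ F : T → MvPolynomial ι (ZMod p), ∀ s,
      F s = ∑ v, C (y s v) * (∑ i, X i * C (l v i)) ^ (p - 1) := ⟨_, fun _ => rfl⟩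
  have hdeg : ∀ s, (F s).totalDegree ≤ p - 1 := by
    intro s
    rw [hF]
    refine totalDegree_finsetSum_le fun v _ => (totalDegree_mul _ _).trans ?_
    rw [totalDegree_C, zero_add]
    refine (totalDegree_pow _ _).trans ?_
    have : (∑ i, X i * C (l v i) : MvPolynomial ι (ZMod p)).totalDegree ≤ 1 :=
      totalDegree_finsetSum_le fun i _ => (totalDegree_mul _ _).trans (by simp)
    simpa using Nat.mul_le_mul_left (p - 1) this
  have hev : ∀ s (w : ι → ZMod p),
      eval w (F s) = ∑ v, y s v * (∑ i, w i * l v i) ^ (p - 1) := by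
    intro s w; rw [hF]; simp
  have hd := char_dvd_card_solutions_of_fintype_sum_lt (K := ZMod p) p (f := F)
    (lt_of_le_of_lt ((sum_le_sum fun s _ => hdeg s).trans (by simp)) h)
  by_contra hc
  push Not at hc
  have h2 := hp.out.two_le
  have h0 : ∀ s, eval (0 : ι → ZMod p) (F s) = 0 := fun s => by
    rw [hev]; simp [zero_pow (show p - 1 ≠ 0 by omega)]
  have : Fintype.card {x : ι → ZMod p // ∀ s, eval x (F s) = 0} = 1 := by
    rw [Fintype.card_eq_one_iff]
    refine ⟨⟨0, h0⟩, fun x => Subtype.ext ?_⟩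
    by_contra hx
    obtain ⟨s, hs⟩ := hc x.1 hx
    exact hs (hev s _ ▸ x.2 s)
  rw [this] at hd
  have := Nat.le_of_dvd one_pos hd
  omega

open Classical in
def Good (g : ℕ) : Prop := ∀ (T U : Type) [Fintype T] [Fintype U],
  ∃ (A B : Type) (_ : Fintype A) (_ : Fintype B) (E : A → B → Prop),
    ∀ (x : T → A → ℤ) (y : U → B → ℤ), ∃ i j, E i j ∧
      (∀ s, (g : ℤ) ∣ ∑ b, if E i b then y s b else 0) ∧
      ∀ s, (g : ℤ) ∣ ∑ a, if E a j then x s a else 0

lemma good_one : Good 1 := fun _ _ _ _ =>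
  ⟨Unit, Unit, inferInstance, inferInstance, fun _ _ => True, fun _ _ => ⟨(), (), trivial, by simp⟩⟩

lemma good_mul {g h : ℕ} (hg : Good g) (hh : Good h) : Good (g * h) := by
  intro T U _ _
  obtain ⟨A2, B2, _, _, E2, h2⟩ := hh T U
  obtain ⟨A1, B1, _, _, E1, h1⟩ := hg (T × A2) (U × B2)
  refine ⟨A1 × A2, B1 × B2, inferInstance, inferInstance,
    fun a b => E1 a.1 b.1 ∧ E2 a.2 b.2, fun x y => ?_⟩
  obtain ⟨a1, b1, e1, hy, hx⟩ := h1 (fun s a => x s.1 (a, s.2)) (fun s b => y s.1 (b, s.2))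
  choose z hz using hy
  choose w hw using hx
  obtain ⟨a2, b2, e2, hy2, hx2⟩ := h2 (fun s a => w (s, a)) (fun s b => z (s, b))
  refine ⟨(a1, a2), (b1, b2), ⟨e1, e2⟩, fun s => ?_, fun s => ?_⟩
  · obtain ⟨r, hr⟩ := hy2 s
    refine ⟨r, ?_⟩
    rw [Nat.cast_mul, mul_assoc, ← hr, mul_sum, Fintype.sum_prod_type_right]
    refine sum_congr rfl fun b _ => ?_
    by_cases hb : E2 a2 b
    · simp only [hb, and_true, if_true]
      rw [← hz (s, b)]
      refine sum_congr rfl fun c _ => ?_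
      by_cases hc : E1 a1 c <;> simp [hb, hc]
    · simp [hb]
  · obtain ⟨r, hr⟩ := hx2 s
    refine ⟨r, ?_⟩
    rw [Nat.cast_mul, mul_assoc, ← hr, mul_sum, Fintype.sum_prod_type_right]
    refine sum_congr rfl fun b _ => ?_
    by_cases hb : E2 b b2
    · simp only [hb, and_true, if_true]
      rw [← hw (s, b)]
      refine sum_congr rfl fun c _ => ?_
      by_cases hc : E1 c b1 <;> simp [hb, hc]
    · simp [hb]

lemma good_prime (p : ℕ) (hp : p.Prime) : Good p := by
  have := Fact.mk hp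
  intro T U _ _
  classical
  obtain ⟨d, hd⟩ : ∃ d, d = (Fintype.card T + Fintype.card U) * (p - 1) + 1 := ⟨_, rfl⟩
  have cast : ∀ {V : Type} [Fintype V] (r : V → ZMod p) (y : V → ℤ),
      ∑ v, (y v : ZMod p) * r v ^ (p - 1) = 0 → (p : ℤ) ∣ ∑ v, if r v ≠ 0 then y v else 0 := by
    intro V _ r y h
    rw [← ZMod.intCast_zmod_eq_zero_iff_dvd]
    refine Eq.trans ?_ h
    push_cast
    refine sum_congr rfl fun v _ => ?_
    rw [ZMod.pow_card_sub_one]
    by_cases hv : r v = 0 <;> simp [hv]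
  refine ⟨Fin d × Fin d → ZMod p, Fin d × Fin d → ZMod p, inferInstance, inferInstance,
    fun u v => ∑ c, u c * v c ≠ 0, fun x y => ?_⟩
  have hv : ∀ k : Fin d, ∃ w : Fin d → ZMod p, w ≠ 0 ∧ ∀ s,
      ∑ u, (x s u : ZMod p) * (∑ i, w i * u (k, i)) ^ (p - 1) = 0 := fun k =>
    cw p (fun s u => (x s u : ZMod p)) (fun u i => u (k, i)) (by
      rw [Fintype.card_fin, hd]; nlinarith [Nat.zero_le (Fintype.card U * (p - 1))])
  choose w hw0 hw using hv
  have hc : ∀ k, ∃ i, w k i ≠ 0 := fun k => Function.ne_iff.1 (hw0 k)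
  choose c hc using hc
  obtain ⟨r, hr0, hr⟩ := cw p (fun s v => (y s v : ZMod p))
    (fun (v : Fin d × Fin d → ZMod p) (k : Fin d) => v (k, c k)) (by
      rw [Fintype.card_fin, hd]; nlinarith [Nat.zero_le (Fintype.card T * (p - 1))])
  obtain ⟨k, hk⟩ := Function.ne_iff.1 hr0
  have e1 : ∀ v : Fin d × Fin d → ZMod p,
      ∑ q : Fin d × Fin d, (if q.2 = c q.1 then r q.1 else 0) * v q = ∑ i, r i * v (i, c i) := by
    intro v; rw [Fintype.sum_prod_type]; simp
  have e2 : ∀ u : Fin d × Fin d → ZMod p,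
      ∑ q : Fin d × Fin d, u q * (if q.1 = k then w k q.2 else 0) = ∑ i, w k i * u (k, i) := by
    intro u; rw [Fintype.sum_prod_type_right]; simp [mul_comm]
  refine ⟨fun q => if q.2 = c q.1 then r q.1 else 0, fun q => if q.1 = k then w k q.2 else 0,
    ?_, fun s => ?_, fun s => ?_⟩
  · simp only [e1]; simpa using ⟨hk, hc k⟩
  · simp only [e1]; convert cast _ _ (hr s)
  · simp only [e2]; convert cast _ _ (hw k s)

lemma good (g : ℕ) (hg : g ≠ 0) : Good g := by
  induction g using induction_on_primes with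
  | zero => exact absurd rfl hg
  | one => exact good_one
  | prime_mul p a hp ih => exact good_mul (good_prime p hp) (ih (by rintro rfl; simp at hg))

lemma offs (k n : ℕ) (f : Fin (k * (k.factorial * n) + 1) → ℕ) (hf : ∀ w, 1 ≤ f w ∧ f w ≤ k)
    (r : ℕ) (hr : r ≤ n) : ∃ X : Finset (Fin (k * (k.factorial * n) + 1)),
      ∑ w ∈ X, f w = k.factorial * r := by
  obtain ⟨c, hc, hcard⟩ := exists_lt_card_fiber_of_mul_lt_card_of_maps_to (s := univ)
    (t := Icc 1 k) (f := f) (n := k.factorial * n) (fun w _ => mem_Icc.2 (hf w)) (by simp)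
  obtain ⟨e, he⟩ := Nat.dvd_factorial (mem_Icc.1 hc).1 (mem_Icc.1 hc).2
  have h1 : e * r ≤ k.factorial * n :=
    Nat.mul_le_mul (Nat.le_of_dvd k.factorial_pos ⟨c, by rw [he, mul_comm]⟩) hr
  obtain ⟨X, hX, hXc⟩ := exists_subset_card_eq (h1.trans hcard.le)
  refine ⟨X, ?_⟩
  rw [sum_congr rfl fun w hw => (mem_filter.1 (hX hw)).2, sum_const, hXc, he, smul_eq_mul]
  ring

open Classical in
theorem core (k : ℕ) : ∃ (P Q : Type) (_ : Fintype P) (_ : Fintype Q) (R : P → Q → Prop),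
    ∀ (fa : P → ℕ) (fb : Q → ℕ), (∀ p, 1 ≤ fa p ∧ fa p ≤ k) → (∀ q, 1 ≤ fb q ∧ fb q ≤ k) →
      ∃ p q, R p q ∧ (∑ b, if R p b then fb b else 0) = ∑ a, if R a q then fa a else 0 := by
  obtain ⟨A, B, _, _, E, hE⟩ := good k.factorial k.factorial_ne_zero Unit Unit
  obtain ⟨N, hN⟩ : ∃ N, N = k * (Fintype.card A + Fintype.card B) := ⟨_, rfl⟩
  obtain ⟨m, hm⟩ : ∃ m, m = 2 * N + 1 := ⟨_, rfl⟩
  obtain ⟨W, _, hW⟩ : ∃ (W : Type) (_ : Fintype W), ∀ f : W → ℕ, (∀ w, 1 ≤ f w ∧ f w ≤ k) →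
      ∀ r ≤ m * m, ∃ X : Finset W, ∑ w ∈ X, f w = k.factorial * r :=
    ⟨_, inferInstance, offs k (m * m)⟩
  refine ⟨W ⊕ (((Fin m → Finset W) × (Fin m → Finset W)) × A × Fin m),
    W ⊕ (((Fin m → Finset W) × (Fin m → Finset W)) × B × Fin m), inferInstance, inferInstance,
    Sum.elim (fun w => Sum.elim (fun _ => False) fun q => w ∈ q.1.2 q.2.2)
      (fun p => Sum.elim (fun w => w ∈ p.1.1 p.2.2) fun q => q.1 = p.1 ∧ E p.2.1 q.2.1),
    fun fa fb ha hb => ?_⟩
  choose X hX using fun s : Fin m => hW (fun w => fb (.inl w)) (fun w => hb _) (s + m * N)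
    (by have := s.2; nlinarith)
  choose Y hY using fun t : Fin m => hW (fun w => fa (.inl w)) (fun w => ha _) (m * t)
    (Nat.mul_le_mul_left _ t.2.le)
  obtain ⟨i, j, hij, h1, h2⟩ := hE (fun _ a => ((∑ s, fa (.inr ((X, Y), a, s)) : ℕ) : ℤ))
    (fun _ b => ((∑ t, fb (.inr ((X, Y), b, t)) : ℕ) : ℤ))
  have bound : ∀ {C : Type} [Fintype C] (D : C → Prop) (g : C → Fin m → ℕ), (∀ c s, g c s ≤ k) →
      (k.factorial : ℤ) ∣ (∑ c, if D c then ((∑ s, g c s : ℕ) : ℤ) else 0) →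
      ∃ r, (∑ c, if D c then ∑ s, g c s else 0) = k.factorial * r ∧
        r ≤ m * (k * Fintype.card C) := by
    intro C _ D g hg hd
    obtain ⟨r, hr⟩ : k.factorial ∣ ∑ c, if D c then ∑ s, g c s else 0 := by
      rw [← Int.natCast_dvd_natCast]; push_cast at hd ⊢; exact hd
    refine ⟨r, hr, (Nat.le_mul_of_pos_left r k.factorial_pos).trans (hr ▸ ?_)⟩
    refine (sum_le_card_nsmul _ _ (m * k) fun c _ => ?_).trans (by simp; nlinarith)
    split_ifs
    · exact (sum_le_card_nsmul _ _ k fun s _ => hg c s).trans (by simp)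
    · exact Nat.zero_le _
  obtain ⟨p, hp, hp2⟩ := bound (E i) _ (fun b t => (hb (.inr ((X, Y), b, t))).2) (h1 ())
  obtain ⟨q, hq, hq2⟩ := bound (fun a => E a j) _ (fun a s => (ha (.inr ((X, Y), a, s))).2) (h2 ())
  have hp3 : p ≤ m * N := hp2.trans (Nat.mul_le_mul_left _ (by rw [hN]; nlinarith))
  have hq3 : q ≤ m * N := hq2.trans (Nat.mul_le_mul_left _ (by rw [hN]; nlinarith))
  obtain ⟨s, t, hst⟩ : ∃ s t : Fin m, s + m * N + p = m * t + q := by
    have m0 : 0 < m := by omega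
    obtain ⟨e, he⟩ : ∃ e, m * N + p = e + q := ⟨m * N + p - q, by omega⟩
    have a1 := Nat.div_add_mod (e + (m - 1)) m
    have a2 := Nat.mod_lt (e + (m - 1)) m0
    refine ⟨⟨m - 1 - (e + (m - 1)) % m, by omega⟩, ⟨(e + (m - 1)) / m, ?_⟩, by simp only; omega⟩
    rw [Nat.div_lt_iff_lt_mul m0]
    have : m * m = m * N + m * N + m := by conv_lhs => enter [2]; rw [hm]
                                           ring
    omega
  refine ⟨.inr ((X, Y), i, s), .inr ((X, Y), j, t), ⟨rfl, hij⟩, ?_⟩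
  simp only [Fintype.sum_sum_type, Sum.elim_inl, Sum.elim_inr, Fintype.sum_prod_type]
  have l1 : (∑ w, if w ∈ X s then fb (.inl w) else 0) = k.factorial * (s + m * N) := by
    rw [← hX s, ← sum_filter]; simp
  have l2 : (∑ w, if w ∈ Y t then fa (.inl w) else 0) = k.factorial * (m * t) := by
    rw [← hY t, ← sum_filter]; simp
  have l3 : (∑ X', ∑ Y', ∑ b, ∑ t', if (X', Y') = (X, Y) ∧ E i b then
      fb (.inr ((X', Y'), b, t')) else 0) = k.factorial * p := by
    rw [← hp, sum_eq_single X (by simp +contextual) (by simp),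
      sum_eq_single Y (by simp +contextual) (by simp)]
    refine sum_congr rfl fun b _ => ?_
    by_cases h : E i b <;> simp [h]
  have l4 : (∑ X', ∑ Y', ∑ a, ∑ s', if (X, Y) = (X', Y') ∧ E a j then
      fa (.inr ((X', Y'), a, s')) else 0) = k.factorial * q := by
    rw [← hq, sum_eq_single X (by simp +contextual [eq_comm]) (by simp),
      sum_eq_single Y (by simp +contextual [eq_comm]) (by simp)]
    refine sum_congr rfl fun b _ => ?_
    by_cases h : E b j <;> simp [h]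
  have : k.factorial * (s + m * N) + k.factorial * p = k.factorial * (m * t) + k.factorial * q := by
    rw [← mul_add, hst, mul_add]
  refine Eq.trans (congrArg₂ (· + ·) ?_ ?_) (this.trans (congrArg₂ (· + ·) ?_ ?_).symm)
  · convert l1
  · convert l3
  · convert l2
  · convert l4

theorem main (k : ℕ) : ∃ (V : Type) (_ : Fintype V) (G : SimpleGraph V), G.Colorable 2 ∧
    ∀ [DecidableRel G.Adj] (f : V → ℕ), (∀ v, 1 ≤ f v ∧ f v ≤ k) → ∃ u v, G.Adj u v ∧
      ∑ w ∈ G.neighborFinset u, f w = ∑ w ∈ G.neighborFinset v, f w := by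
  classical
  obtain ⟨P, Q, _, _, R, hR⟩ := core k
  let G : SimpleGraph (P ⊕ Q) :=
    { Adj := Sum.elim (fun p => Sum.elim (fun _ => False) fun q => R p q)
        (fun q => Sum.elim (fun p => R p q) fun _ => False)
      symm := ⟨by rintro (a | a) (b | b) h <;> exact h⟩
      loopless := ⟨by rintro (a | a) h <;> exact h⟩ }
  refine ⟨P ⊕ Q, inferInstance, G, ⟨SimpleGraph.Coloring.mk (Sum.elim (fun _ => 0) fun _ => 1) ?_⟩,
    fun f hf => ?_⟩
  · rintro (a | a) (b | b) h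
    · exact h.elim
    · simp
    · simp
    · exact h.elim
  · obtain ⟨p, q, h, he⟩ := hR (fun p => f (.inl p)) (fun q => f (.inr q)) (fun _ => hf _)
      (fun _ => hf _)
    refine ⟨.inl p, .inr q, h, ?_⟩
    simp only [SimpleGraph.neighborFinset_eq_filter, sum_filter, Fintype.sum_sum_type]
    simp only [G, Sum.elim_inl, Sum.elim_inr, if_false, sum_const_zero, zero_add, add_zero]
    convert he

end Pool.Agent.H.MP_84c3f1_co
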